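import Pool.Agent.N984.QX.Stm2
import Pool.Agent.N985.QX.STATE
import Pool.Agent.N986.QX.RED

set_option autoImplicit false

/-!
# Project QX (helper984), leaves EV0 and WEV (helper195)

The expectations of the nontrivial Pauli operators supported in a maximally mixed set vanish.
-/

namespace Pool.Agent.N195.QX

open Pool.Agent.N984.QX Pool.Agent.N985.QX.STATE
open scoped ComplexConjugate

theorem t_EV0 : S_EV0 := by
  intro n ψ h
  unfold ev
  have h1 : ∀ x : Fin n → ZMod 2, star (ψ x) * (sgn (∑ i, ((0 : Vc n) i).2 * x i) *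
      ψ (fun i => x i + ((0 : Vc n) i).1)) = ((‖ψ x‖ ^ 2 : ℝ) : ℂ) := by
    intro x
    have e1 : ∑ i, ((0 : Vc n) i).2 * x i = 0 := Finset.sum_eq_zero fun i _ => zero_mul _
    have e2 : (fun i => x i + ((0 : Vc n) i).1) = x := funext fun i => add_zero _
    have e3 : sgn 0 = 1 := if_pos rfl
    rw [e1, e2, e3, one_mul, mul_comm, Complex.ofReal_pow]
    exact Complex.mul_conj' (ψ x)
  rw [Finset.sum_congr rfl fun x _ => h1 x, ← Complex.ofReal_sum]
  unfold Normalised at h
  rw [h, Complex.ofReal_one]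

theorem ev_eq {n : ℕ} (ψ : (Fin n → ZMod 2) → ℂ) (v : Vc n) : ev ψ v = ip ψ (T v ψ) := rfl

theorem t_WEV : S_WEV := by
  classical
  intro n ψ X hX v hv hv0
  set s : {i // i ∈ X} → ZMod 2 := fun i => (v i).1 with hs
  set t : {i // i ∈ X} → ZMod 2 := fun i => (v i).2 with ht
  have hvec : v = vec X s t := by
    funext i
    unfold vec
    by_cases h : i ∈ X
    · rw [dif_pos h]
    · rw [dif_neg h, hv i h]
  have hst : s ≠ 0 ∨ t ≠ 0 := by
    by_contra hc
    push Not at hc
    apply hv0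
    rw [hvec, hc.1, hc.2]
    funext i
    unfold vec
    split_ifs <;> rfl
  rw [Pool.Agent.N986.QX.mm_iff] at hX
  have hR : ∀ a : {i // i ∈ X} → ZMod 2, R ψ X s a =
      if s = 0 then ((2 : ℂ) ^ X.card)⁻¹ else 0 := by
    intro a
    have h1 := hX (a + s) a
    have h2 : R ψ X s a = ∑ b, ψ (glue X (a + s) b) * star (ψ (glue X a b)) := by
      unfold R
      exact Finset.sum_congr rfl fun b _ => mul_comm _ _
    rw [h2, h1]
    by_cases h3 : s = 0
    · rw [if_pos h3, if_pos (by rw [h3, add_zero])]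
    · rw [if_neg h3, if_neg fun h4 => h3 (add_eq_left.1 h4)]
  rw [ev_eq, hvec, ip_vec]
  by_cases h3 : s = 0
  · have h4 : t ≠ 0 := hst.resolve_left fun h => h h3
    have h5 : ∀ a : {i // i ∈ X} → ZMod 2, sg (∑ i, t i * a i) * R ψ X s a =
        sg (∑ i, a i * t i) * ((2 : ℂ) ^ X.card)⁻¹ := by
      intro a
      rw [hR, if_pos h3, Finset.sum_congr rfl fun i _ => mul_comm (t i) (a i)]
    rw [Finset.sum_congr rfl fun a _ => h5 a, ← Finset.sum_mul, orth, if_neg h4, zero_mul]
  · exact Finset.sum_eq_zero fun a _ => by rw [hR, if_neg h3, mul_zero]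

end Pool.Agent.N195.QX
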